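import Pool.Agent.Helper46.RO.Base

/-!
# RO-P2: one step of pushing
-/

namespace Pool.Agent.Helper81.RO

open Pool.Agent.Helper46.RO

universe u

section dot

variable {n : ℕ}

/-- the dot product -/
def dt (a b : Fin n → ℤ) : ℤ := ∑ i, a i * b i

theorem nrm_add (a b : Fin n → ℤ) : nrm (a + b) = nrm a + 2 * dt a b + nrm b := by
  simp only [nrm, dt, Pi.add_apply, Finset.mul_sum, ← Finset.sum_add_distrib]
  exact Finset.sum_congr rfl (fun i _ => by ring)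

theorem dt_add_left (a b c : Fin n → ℤ) : dt (a + b) c = dt a c + dt b c := by
  simp only [dt, Pi.add_apply, ← Finset.sum_add_distrib]
  exact Finset.sum_congr rfl (fun i _ => by ring)

theorem dt_le (a b : Fin n → ℤ) : 2 * dt a b ≤ nrm a + nrm b := by
  simp only [nrm, dt, Finset.mul_sum, ← Finset.sum_add_distrib]
  exact Finset.sum_le_sum (fun i _ => by nlinarith [sq_nonneg (a i - b i)])

theorem nrm_nonneg (a : Fin n → ℤ) : 0 ≤ nrm a := Finset.sum_nonneg (fun _ _ => sq_nonneg _)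

theorem dt_smul_right (a b : Fin n → ℤ) (z : ℤ) : dt a (z • b) = z * dt a b := by
  simp only [dt, Pi.smul_apply, smul_eq_mul, Finset.mul_sum]
  exact Finset.sum_congr rfl (fun i _ => by ring)

theorem nrm_smul (b : Fin n → ℤ) (z : ℤ) : nrm (z • b) = z ^ 2 * nrm b := by
  simp only [nrm, Pi.smul_apply, smul_eq_mul, Finset.mul_sum]
  exact Finset.sum_congr rfl (fun i _ => by ring)

end dot

variable {L : Type u} [Group L] {X : Finset L} {n : ℕ} {π : L → Fin n → ℤ}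

theorem pi_one (hπ : IsHomZ π) : π 1 = 0 := by
  have h := hπ 1 1
  rw [mul_one] at h
  exact left_eq_add.1 h

theorem pi_pow (hπ : IsHomZ π) (a : L) (i : ℕ) : π (a ^ i) = (i : ℤ) • π a := by
  induction i with
  | zero => rw [pow_zero, pi_one hπ]; simp
  | succ i ih => rw [pow_succ, hπ, ih]; push_cast; rw [add_smul, one_smul]

theorem descent_nrm (hπ : IsHomZ π) (q x0 : L) (K : ℤ) (M m : ℕ) (hq : nrm (π q) ≤ K + 1)
    (hx0 : nrm (π x0) ≤ M) (hm : m ≤ M) (hd : 2 * dt (π q) (π x0) + (M : ℤ) ^ 2 + 1 ≤ 0)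
    (i : ℕ) (hi1 : 1 ≤ i) (him : i ≤ m) : nrm (π (q * x0 ^ i)) ≤ K := by
  rw [hπ, pi_pow hπ, nrm_add, dt_smul_right, nrm_smul]
  have hi : (1 : ℤ) ≤ i := by exact_mod_cast hi1
  have hiM : (i : ℤ) ≤ M := by exact_mod_cast him.trans hm
  have h1 : (i : ℤ) ^ 2 * nrm (π x0) ≤ i * (M * M) := by
    have a1 : (i : ℤ) * nrm (π x0) ≤ M * M :=
      mul_le_mul hiM hx0 (nrm_nonneg _) (by omega)
    have a2 := mul_le_mul_of_nonneg_left a1 (show (0 : ℤ) ≤ i by omega)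
    calc (i : ℤ) ^ 2 * nrm (π x0) = i * (i * nrm (π x0)) := by ring
      _ ≤ _ := a2
  have h2 : (i : ℤ) * (2 * dt (π q) (π x0) + (M : ℤ) ^ 2 + 1) ≤ 0 :=
    mul_nonpos_of_nonneg_of_nonpos (by omega) hd
  nlinarith

theorem conn_pow {P : Set L} {q x0 : L} (hx0 : x0 ∈ X) (a b : ℕ) (hab : a ≤ b)
    (h : ∀ i, a ≤ i → i ≤ b → q * x0 ^ i ∈ P) : Conn X P (q * x0 ^ a) (q * x0 ^ b) := by
  induction b, hab using Nat.le_induction with
  | base => exact Conn.refl _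
  | succ b hab ih =>
    refine (ih (fun i h1 h2 => h i h1 (by omega))).trans ?_
    have := Conn.step (P := P) (g := q * x0 ^ b) hx0 (h b hab (by omega))
      (by rw [mul_assoc, ← pow_succ]; exact h (b + 1) (by omega) le_rfl)
    rwa [mul_assoc, ← pow_succ] at this

/-- A witness at the vertex `k`. -/
def At (X : Finset L) (π : L → Fin n → ℤ) (M : ℕ) (k : L) (W : L × ℕ × Finset L) : Prop :=
  W.1 ∈ X ∧ 1 ≤ W.2.1 ∧ W.2.1 ≤ M ∧ (∀ v ∈ W.2.2, nrm (π v) ≤ M) ∧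
    2 * dt (π k) (π W.1) + ((M : ℤ) + 1) ^ 2 ≤ 0 ∧
    ∀ x ∈ X, Conn X {h | h ∈ W.2.2 ∧ 2 * dt (π k) (π h) + ((M : ℤ) + 1) ^ 2 ≤ 0}
      (W.1 ^ W.2.1) (x * W.1 ^ W.2.1)

/-- The path of the witness, translated to `k`. -/
theorem At.path (hπ : IsHomZ π) {M : ℕ} {k : L} {K : ℤ} (hk : nrm (π k) = K + 1)
    {W : L × ℕ × Finset L} (hW : At X π M k W) {x : L} (hx : x ∈ X) :
    Conn X {h | nrm (π h) ≤ K} (k * W.1 ^ W.2.1) (k * x * W.1 ^ W.2.1) := by
  obtain ⟨_, _, _, hF, _, hc⟩ := hW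
  rw [mul_assoc]
  refine (hc x hx).translate k ?_
  rintro v ⟨hv, hdv⟩
  change nrm (π (k * v)) ≤ K
  rw [hπ, nrm_add, hk]
  have := hF v hv
  have hM : (0 : ℤ) ≤ M := Int.natCast_nonneg M
  nlinarith

/-- The descent from `k x`. -/
theorem At.desc (hπ : IsHomZ π) {M : ℕ} (hM : ∀ x ∈ X, nrm (π x) ≤ M) {k : L} {K : ℤ}
    {W : L × ℕ × Finset L} (hW : At X π M k W) {x : L} (hx : x ∈ X)
    (hq : nrm (π (k * x)) ≤ K + 1) (i : ℕ) (hi1 : 1 ≤ i) (him : i ≤ W.2.1) :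
    nrm (π (k * x * W.1 ^ i)) ≤ K := by
  obtain ⟨h1, _, hm, _, hd, _⟩ := hW
  refine descent_nrm hπ (k * x) W.1 K M W.2.1 hq (hM _ h1) hm ?_ i hi1 him
  rw [hπ, dt_add_left]
  have a1 := dt_le (π x) (π W.1)
  have a2 := hM x hx
  have a3 := hM _ h1
  nlinarith

theorem core (hX : SymGen X) (hπ : IsHomZ π) (M : ℕ) (hM : ∀ x ∈ X, nrm (π x) ≤ M) (K : ℤ)
    (hat : ∀ k, nrm (π k) = K + 1 → ∃ W, At X π M k W) (g : L) (hg : nrm (π g) ≤ K) (h : L)
    (hc : Conn X {k | nrm (π k) ≤ K + 1} g h) :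
    (nrm (π h) ≤ K → Conn X {k | nrm (π k) ≤ K} g h) ∧
    (nrm (π h) = K + 1 → ∀ W, At X π M h W →
      Conn X {k | nrm (π k) ≤ K} g (h * W.1 ^ W.2.1)) := by
  induction hc with
  | refl => exact ⟨fun _ => Conn.refl _, fun h => by omega⟩
  | @tail b c _ hbc ih =>
    obtain ⟨hb, hc, hx⟩ := hbc
    have hb : nrm (π b) ≤ K + 1 := hb
    have hc : nrm (π c) ≤ K + 1 := hc
    obtain ⟨x, rfl⟩ : ∃ x, c = b * x := ⟨b⁻¹ * c, by rw [mul_inv_cancel_left]⟩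
    rw [inv_mul_cancel_left] at hx
    rcases hb.lt_or_eq with hb' | hb'
    · have hbK : nrm (π b) ≤ K := by omega
      have ih1 := ih.1 hbK
      refine ⟨fun hcK => ih1.trans (Conn.step hx hbK hcK), fun hcK W hW => ?_⟩
      -- b = c * x⁻¹
      have hx' := hX.1 x hx
      have e : b * x * x⁻¹ = b := mul_inv_cancel_right b x
      have p1 := hW.path hπ hcK hx'
      rw [e] at p1
      have p2 : Conn X {k | nrm (π k) ≤ K} (b * W.1 ^ 0) (b * W.1 ^ W.2.1) := by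
        refine conn_pow hW.1 0 W.2.1 (Nat.zero_le _) (fun i _ hi => ?_)
        rcases Nat.eq_zero_or_pos i with rfl | hi0
        · rw [pow_zero, mul_one]; exact hbK
        · have := hW.desc hπ hM (K := K) hx' (by rw [e]; omega) i hi0 hi
          rw [e] at this
          exact this
      rw [pow_zero, mul_one] at p2
      exact (ih1.trans p2).trans (p1.symm hX)
    · obtain ⟨W, hW⟩ := hat b hb'
      have ih2 := ih.2 hb' W hW
      have p1 := hW.path hπ hb' hx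
      refine ⟨fun hcK => ?_, fun hcK W' hW' => ?_⟩
      · have p2 : Conn X {k | nrm (π k) ≤ K} (b * x * W.1 ^ 0) (b * x * W.1 ^ W.2.1) := by
          refine conn_pow hW.1 0 W.2.1 (Nat.zero_le _) (fun i _ hi => ?_)
          rcases Nat.eq_zero_or_pos i with rfl | hi0
          · rw [pow_zero, mul_one]; exact hcK
          · exact hW.desc hπ hM hx (by omega) i hi0 hi
        rw [pow_zero, mul_one] at p2
        exact (ih2.trans p1).trans (p2.symm hX)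
      · have hm := hW.2.1
        have p2 : Conn X {k | nrm (π k) ≤ K} (b * x * W.1 ^ 1) (b * x * W.1 ^ W.2.1) :=
          conn_pow hW.1 1 W.2.1 hm
            (fun i hi1 hi => hW.desc hπ hM hx (by omega) i hi1 hi)
        rw [pow_one] at p2
        have hq : nrm (π (b * x * W.1)) ≤ K := by
          have := hW.desc hπ hM (K := K) hx (by omega) 1 le_rfl hm
          rwa [pow_one] at this
        have p3 := hW'.path hπ hcK hW.1
        have p4 : Conn X {k | nrm (π k) ≤ K} (b * x * W.1 * W'.1 ^ 0)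
            (b * x * W.1 * W'.1 ^ W'.2.1) := by
          refine conn_pow hW'.1 0 W'.2.1 (Nat.zero_le _) (fun i _ hi => ?_)
          rcases Nat.eq_zero_or_pos i with rfl | hi0
          · rw [pow_zero, mul_one]; exact hq
          · exact hW'.desc hπ hM hW.1 (by omega) i hi0 hi
        rw [pow_zero, mul_one] at p4
        exact (((ih2.trans p1).trans (p2.symm hX)).trans p4).trans (p3.symm hX)

theorem chr_one (hπ : IsHomZ π) (w : Fin n → ℝ) : chr π w 1 = 0 := by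
  simp [chr, pi_one hπ]

theorem m_pos (hπ : IsHomZ π) {w : Fin n → ℝ} {δ : ℝ} (hδ : 0 < δ) {W : L × ℕ × Finset L}
    (hW : Good X π w δ W) : 1 ≤ W.2.1 := by
  obtain ⟨h1, h2, h3⟩ := hW
  by_contra hm
  have hm0 : W.2.1 = 0 := by omega
  have h := h3 W.1 h1
  rw [hm0, pow_zero, mul_one] at h
  rcases Relation.ReflTransGen.cases_head h with he | ⟨c, ⟨hc, _⟩, _⟩
  · rw [← he, chr_one hπ] at h2
    linarith
  · have h4 := hc.2
    rw [chr_one hπ] at h4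
    have := le_max_left 0 (chr π w W.1)
    linarith

omit [Group L] in
theorem chr_eq (π : L → Fin n → ℤ) (k h : L) (r : ℝ) :
    chr π (fun i => -(π k i : ℝ) / r) h = -((dt (π k) (π h) : ℤ) : ℝ) / r := by
  simp only [chr, dt]
  push_cast
  rw [← Finset.sum_neg_distrib, Finset.sum_div]
  exact Finset.sum_congr rfl (fun i _ => by ring)

theorem P2 : GoalP2.{u} := by
  classical
  intro L _ X n π hX hπ ⟨𝒲, δ, hδ, hU⟩
  -- the bound
  obtain ⟨M, hM1, hM2, hM3⟩ : ∃ M : ℕ, (∀ x ∈ X, nrm (π x) ≤ M) ∧ (∀ W ∈ 𝒲, W.2.1 ≤ M) ∧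
      (∀ W ∈ 𝒲, ∀ v ∈ W.2.2, nrm (π v) ≤ M) := by
    refine ⟨∑ x ∈ X, (nrm (π x)).toNat + ∑ W ∈ 𝒲, W.2.1 +
      ∑ W ∈ 𝒲, ∑ v ∈ W.2.2, (nrm (π v)).toNat, ?_, ?_, ?_⟩
    · intro x hx
      have h1 : (nrm (π x)).toNat ≤ ∑ x ∈ X, (nrm (π x)).toNat :=
        Finset.single_le_sum (f := fun x => (nrm (π x)).toNat) (fun _ _ => Nat.zero_le _) hx
      have h2 := Int.self_le_toNat (nrm (π x))
      have h4 : ((nrm (π x)).toNat : ℤ) ≤ ((∑ x ∈ X, (nrm (π x)).toNat : ℕ) : ℤ) := by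
        exact_mod_cast h1
      have h5 : (0 : ℤ) ≤ ((∑ W ∈ 𝒲, W.2.1 : ℕ) : ℤ) := Int.natCast_nonneg _
      have h6 : (0 : ℤ) ≤ ((∑ W ∈ 𝒲, ∑ v ∈ W.2.2, (nrm (π v)).toNat : ℕ) : ℤ) :=
        Int.natCast_nonneg _
      rw [Nat.cast_add (∑ x ∈ X, (nrm (π x)).toNat + ∑ W ∈ 𝒲, W.2.1),
        Nat.cast_add (∑ x ∈ X, (nrm (π x)).toNat)]
      linarith
    · intro W hW
      have h1 : W.2.1 ≤ ∑ W ∈ 𝒲, W.2.1 :=
        Finset.single_le_sum (f := fun W : L × ℕ × Finset L => W.2.1)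
          (fun _ _ => Nat.zero_le _) hW
      omega
    · intro W hW v hv
      have h1 : (nrm (π v)).toNat ≤ ∑ v ∈ W.2.2, (nrm (π v)).toNat :=
        Finset.single_le_sum (f := fun v => (nrm (π v)).toNat) (fun _ _ => Nat.zero_le _) hv
      have h3 : ∑ v ∈ W.2.2, (nrm (π v)).toNat ≤
          ∑ W ∈ 𝒲, ∑ v ∈ W.2.2, (nrm (π v)).toNat :=
        Finset.single_le_sum (f := fun W : L × ℕ × Finset L =>
          ∑ v ∈ W.2.2, (nrm (π v)).toNat) (fun _ _ => Nat.zero_le _) hW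
      have h2 := Int.self_le_toNat (nrm (π v))
      have h4 : ((nrm (π v)).toNat : ℤ) ≤
          ((∑ W ∈ 𝒲, ∑ v ∈ W.2.2, (nrm (π v)).toNat : ℕ) : ℤ) := by
        exact_mod_cast h1.trans h3
      have h5 : (0 : ℤ) ≤ ((∑ x ∈ X, (nrm (π x)).toNat + ∑ W ∈ 𝒲, W.2.1 : ℕ) : ℤ) :=
        Int.natCast_nonneg _
      rw [Nat.cast_add (∑ x ∈ X, (nrm (π x)).toNat + ∑ W ∈ 𝒲, W.2.1)]
      linarith
  set B : ℝ := ((M : ℝ) + 1) ^ 2 / (2 * δ) with hB
  have hB0 : 0 < B := by positivity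
  refine ⟨⌈B ^ 2⌉, fun K hK g h hg hh hc => ?_⟩
  refine (core hX hπ M hM1 K ?_ g hg h hc).1 hh
  intro k hk
  have hKB : B ^ 2 ≤ (K : ℝ) + 1 := by
    have := (Int.ceil_le.1 hK)
    linarith
  have hK1 : (0 : ℝ) < (K : ℝ) + 1 := lt_of_lt_of_le (by positivity) hKB
  set r : ℝ := Real.sqrt ((K : ℝ) + 1) with hr
  have hr0 : 0 < r := Real.sqrt_pos.2 hK1
  have hr2 : r ^ 2 = (K : ℝ) + 1 := Real.sq_sqrt hK1.le
  have hBr : B ≤ r := Real.le_sqrt_of_sq_le hKB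
  have h2 : ((M : ℝ) + 1) ^ 2 ≤ 2 * (δ * r) := by
    rw [hB, div_le_iff₀ (by positivity)] at hBr
    linarith
  have hw : ∑ i, (-(π k i : ℝ) / r) ^ 2 = 1 := by
    have e : ∑ i, (-(π k i : ℝ) / r) ^ 2 = ((nrm (π k) : ℤ) : ℝ) / r ^ 2 := by
      simp only [nrm]
      push_cast
      rw [Finset.sum_div]
      exact Finset.sum_congr rfl (fun i _ => by ring)
    rw [e, hk, hr2]
    push_cast
    exact div_self hK1.ne'
  obtain ⟨W, hW, hG⟩ := hU (fun i => -(π k i : ℝ) / r) hw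
  have conv : ∀ v : L, δ ≤ chr π (fun i => -(π k i : ℝ) / r) v →
      2 * dt (π k) (π v) + ((M : ℤ) + 1) ^ 2 ≤ 0 := by
    intro v hv
    rw [chr_eq, le_div_iff₀ hr0] at hv
    have : (2 * ((dt (π k) (π v) : ℤ) : ℝ) + ((M : ℝ) + 1) ^ 2) ≤ 0 := by linarith
    exact_mod_cast this
  refine ⟨W, hG.1, m_pos hπ hδ hG, hM2 W hW, hM3 W hW, conv _ hG.2.1, fun x hx => ?_⟩
  refine (hG.2.2 x hx).mono ?_
  rintro v ⟨hv1, hv2⟩
  refine ⟨hv1, conv v ?_⟩
  have := le_max_left 0 (chr π (fun i => -(π k i : ℝ) / r) x)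
  linarith

end Pool.Agent.Helper81.RO
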